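import Pool.Agent.H606.GU.Stm2
import Pool.Agent.H354.GU.AMP

/-! TASK AMP2 of project GU2 (helper606): the tensor power trick with a fixed exponent. -/

open MeasureTheory Filter Topology Finset
open Pool.Agent.H606.GU

namespace Pool.Agent.H548.GU.AMP2

theorem t_AMP2 (hAV : S_AV) (hTC : S_TC) (hINT : S_INT) (hUPC : S_UPC) (hSETS : S_SETS)
    (hMOM : S_MOM) (hRHO : S_RHO) (hFIS : S_FIS) (hBLK : S_BLK) (hAVE : S_AVE) : S_AMP2 := by
  intro C j k b c hj hk hb0 hc0 hc hUp K hK ε hε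
  have : Nonempty (Fin k) := ⟨⟨0, hk⟩⟩
  obtain ⟨B0, hB0⟩ := hK.isBounded.exists_norm_le
  set B := max B0 0 with hBd
  have hB : ∀ y ∈ K, ∀ i, |y i| ≤ B := fun y hy i =>
    ((norm_le_pi_norm y i).trans (hB0 y hy)).trans (le_max_left _ _)
  have hBnn : 0 ≤ B := le_max_right _ _
  set D := 2 * B + 1 with hDd
  have hD : 0 < D := by positivity
  set K' := {y : Fin k → ℝ | (fun i => y i - B) ∈ K} with hK'd
  have hK' : IsCompact K' := by
    have : K' = (Homeomorph.subRight (fun _ : Fin k => B)) ⁻¹' K := rfl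
    rw [this]
    exact (Homeomorph.subRight (fun _ : Fin k => B)).isCompact_preimage.2 hK
  have hK'D : K' ⊆ tile k D 0 := by
    intro y hy l
    have h1 := hB _ hy l
    rw [abs_le] at h1
    simp only [CharP.cast_eq_zero, zero_mul, zero_add, one_mul]
    constructor
    · linarith [h1.1]
    · rw [hDd]; linarith [h1.2]
  have hint : ∫ y in K', rho y = ∫ y in K, rho y :=
    Pool.Agent.H354.GU.AMP.trans_int hRHO k K B
  set m := ∫ y in K, rho y with hm
  have hm0 : 0 ≤ m := integral_nonneg fun y => ((hFIS.1 (Fin k) y).2).1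
  have hev := Pool.Agent.H354.GU.AMP.core hAV hTC hBLK hMOM hAVE hFIS C k j hk hj D hD K' hK' hK'D
    c hc0 hUp (ε ^ j) (by positivity)
  filter_upwards [hev, C.hR.eventually_gt_atTop 0] with T hT hTR
  have hAvK : Av (C.x T) (C.R T) K' = Av (C.x T) (C.R T) K :=
    (hAV (Fin k) (C.N T) (C.x T) (C.R T) hTR).2.1 K B
  rw [hAvK, hint] at hT
  by_contra hcon
  push Not at hcon
  have h3 : (b * m) ^ j + ε ^ j ≤ (b * m + ε) ^ j :=
    pow_add_pow_le (by positivity) hε.le (by omega)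
  have h4 : (b * m + ε) ^ j < (Av (C.x T) (C.R T) K) ^ j :=
    pow_lt_pow_left₀ hcon (by positivity) (by omega)
  have h5 : c * m ^ j ≤ (b * m) ^ j := by
    rw [mul_pow]
    exact mul_le_mul_of_nonneg_right hc (pow_nonneg hm0 j)
  linarith

end Pool.Agent.H548.GU.AMP2
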