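import Pool.Agent.H606.GU.Stm

/-! TASK TAIL of project GU (helper606): the missing mass outside of the window is `o(M)`. -/

open MeasureTheory Filter Topology Finset
open Pool.Agent.H606.GU

namespace Pool.Agent.H548.GU.TAIL

/-- the defect -/
noncomputable def q {k : ℕ} (y : Fin k → ℝ) (v : ℝ) : ℝ := rho y - rho (sn y v)

theorem continuous_sn (k : ℕ) : Continuous (fun p : (Fin k → ℝ) × ℝ => sn p.1 p.2) := by
  refine continuous_pi fun i => ?_
  refine Fin.lastCases ?_ (fun j => ?_) i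
  · have h : (fun p : (Fin k → ℝ) × ℝ => sn p.1 p.2 (Fin.last k)) = fun p => p.2 := by
      funext p
      unfold sn
      rw [Fin.snoc_last]
    rw [h]
    exact continuous_snd
  · have h : (fun p : (Fin k → ℝ) × ℝ => sn p.1 p.2 j.castSucc) = fun p => p.1 j := by
      funext p
      unfold sn
      rw [Fin.snoc_castSucc]
    rw [h]
    exact (continuous_apply j).comp continuous_fst

theorem sn_sub {k : ℕ} (y : Fin k → ℝ) (v t : ℝ) :
    sn (fun i => y i - t) (v - t) = fun i => sn y v i - t := by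
  funext i
  refine Fin.lastCases ?_ (fun j => ?_) i
  · unfold sn
    rw [Fin.snoc_last, Fin.snoc_last]
  · unfold sn
    rw [Fin.snoc_castSucc, Fin.snoc_castSucc]

theorem q_sub (hRHO : S_RHO) {k : ℕ} (y : Fin k → ℝ) (v t : ℝ) :
    q (fun i => y i - t) (v - t) = q y v := by
  unfold q
  rw [sn_sub, hRHO.2.2.1 (Fin k) y t, hRHO.2.2.1 (Fin (k + 1)) (sn y v) t]

theorem continuous_q (hRHO : S_RHO) (k : ℕ) :
    Continuous (fun p : (Fin k → ℝ) × ℝ => q p.1 p.2) := by
  unfold q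
  exact ((hRHO.1 (Fin k)).comp continuous_fst).sub ((hRHO.1 (Fin (k + 1))).comp (continuous_sn k))

theorem q_nonneg (hFIS : S_FIS) {k : ℕ} (y : Fin k → ℝ) (v : ℝ) : 0 ≤ q y v :=
  sub_nonneg.2 (hFIS.2.2.2 k y v)

theorem integrable_q (hSUM : S_SUM) {k : ℕ} (y : Fin k → ℝ) : Integrable (q y) := (hSUM k y).1

theorem integral_q_le (hFIS : S_FIS) (hSUM : S_SUM) {k : ℕ} (y : Fin k → ℝ) :
    ∫ v, q y v ≤ k := by
  have h1 : ∫ v, q y v = k * rho y := (hSUM k y).2
  have h2 := (hFIS.1 (Fin k) y).2.2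
  rw [h1]
  calc (k : ℝ) * rho y ≤ k * 1 := mul_le_mul_of_nonneg_left h2 (Nat.cast_nonneg k)
    _ = k := mul_one _

/-- the complement of the symmetric interval -/
def W (x : ℝ) : Set ℝ := {v | x ≤ |v|}

theorem measurableSet_W (x : ℝ) : MeasurableSet (W x) :=
  measurableSet_le measurable_const measurable_abs

/-- the inner tail -/
noncomputable def g {k : ℕ} (x : ℝ) (y : Fin k → ℝ) : ℝ := ∫ v in W x, q y v

theorem g_nonneg (hFIS : S_FIS) {k : ℕ} (x : ℝ) (y : Fin k → ℝ) : 0 ≤ g x y :=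
  integral_nonneg fun v => q_nonneg hFIS y v

theorem g_le (hFIS : S_FIS) (hSUM : S_SUM) {k : ℕ} (x : ℝ) (y : Fin k → ℝ) : g x y ≤ k :=
  (setIntegral_le_integral (integrable_q hSUM y)
    (Eventually.of_forall fun v => q_nonneg hFIS y v)).trans (integral_q_le hFIS hSUM y)

theorem measurable_inner (hRHO : S_RHO) (k : ℕ) (S : Set ℝ) :
    StronglyMeasurable (fun y : Fin k → ℝ => ∫ v in S, q y v) :=
  (continuous_q hRHO k).stronglyMeasurable.integral_prod_right'

theorem tile_eq (k : ℕ) (a : ℝ) (i : ℕ) :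
    tile k a i = Set.pi Set.univ (fun _ => Set.Ico ((i : ℝ) * a) (((i : ℝ) + 1) * a)) := by
  ext y
  simp only [tile, Set.mem_ofPred_eq, Set.mem_pi, Set.mem_univ, true_implies, Set.mem_Ico]

theorem measurableSet_tile (k : ℕ) (a : ℝ) (i : ℕ) : MeasurableSet (tile k a i) := by
  rw [tile_eq]
  exact MeasurableSet.univ_pi fun _ => measurableSet_Ico

theorem volume_tile_lt (k : ℕ) (a : ℝ) : volume (tile k a 0) < ⊤ := by
  have h1 : tile k a 0 ⊆ Set.Icc (fun _ => 0) (fun _ => a) := by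
    intro y hy
    refine ⟨fun l => ?_, fun l => ?_⟩
    · have := (hy l).1
      rwa [Nat.cast_zero, zero_mul] at this
    · have := (hy l).2
      rw [Nat.cast_zero, zero_add, one_mul] at this
      exact this.le
  exact (measure_mono h1).trans_lt isCompact_Icc.measure_lt_top

theorem integrableOn_of_bound (k : ℕ) (a : ℝ) (f : (Fin k → ℝ) → ℝ) (hf : StronglyMeasurable f)
    (C : ℝ) (h : ∀ y, |f y| ≤ C) : IntegrableOn f (tile k a 0) := by
  have : IsFiniteMeasure (volume.restrict (tile k a 0)) :=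
    ⟨by rw [Measure.restrict_apply_univ]; exact volume_tile_lt k a⟩
  refine Integrable.of_bound (C := C) hf.aestronglyMeasurable (Eventually.of_forall fun y => ?_)
  rw [Real.norm_eq_abs]
  exact h y

/-- the tail -/
noncomputable def tail (k : ℕ) (a x : ℝ) : ℝ := ∫ y in tile k a 0, g x y

theorem g_tendsto (hSUM : S_SUM) {k : ℕ} (a : ℝ) (ha : 0 < a) (y : Fin k → ℝ) :
    Tendsto (fun i : ℕ => g ((i : ℝ) * a) y) atTop (𝓝 0) := by
  have h1 := tendsto_setIntegral_of_antitone (μ := volume) (f := q y)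
    (s := fun i : ℕ => W ((i : ℝ) * a)) (fun i => measurableSet_W _)
    (by
      intro i j hij v hv
      have h2 : (i : ℝ) * a ≤ j * a :=
        mul_le_mul_of_nonneg_right (by exact_mod_cast hij) ha.le
      exact h2.trans hv)
    ⟨0, (integrable_q hSUM y).integrableOn⟩
  have h2 : (⋂ i : ℕ, W ((i : ℝ) * a)) = ∅ := by
    rw [Set.eq_empty_iff_forall_notMem]
    intro v hv
    rw [Set.mem_iInter] at hv
    obtain ⟨n, hn⟩ := exists_nat_gt (|v| / a)
    have h3 : (n : ℝ) * a ≤ |v| := hv n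
    rw [div_lt_iff₀ ha] at hn
    linarith
  rw [h2, setIntegral_empty] at h1
  exact h1

theorem tail_tendsto (hFIS : S_FIS) (hRHO : S_RHO) (hSUM : S_SUM) (k : ℕ) (a : ℝ) (ha : 0 < a) :
    Tendsto (fun i : ℕ => tail k a ((i : ℝ) * a)) atTop (𝓝 0) := by
  have h1 : (0 : ℝ) = ∫ y in tile k a 0, (0 : ℝ) := by
    rw [integral_zero]
  rw [h1]
  refine tendsto_integral_of_dominated_convergence (fun _ => (k : ℝ)) (fun i => ?_) ?_ (fun i => ?_) ?_
  · exact (measurable_inner hRHO k _).aestronglyMeasurable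
  · exact integrableOn_of_bound k a _ stronglyMeasurable_const k
      (fun y => by rw [Nat.abs_cast])
  · refine Eventually.of_forall fun y => ?_
    rw [Real.norm_eq_abs, abs_of_nonneg (g_nonneg hFIS _ y)]
    exact g_le hFIS hSUM _ y
  · exact Eventually.of_forall fun y => g_tendsto hSUM a ha y

theorem mem_tile_shift (k : ℕ) (a : ℝ) (i : ℕ) (y : Fin k → ℝ) :
    y ∈ tile k a i ↔ (y - fun _ => (i : ℝ) * a) ∈ tile k a 0 := by
  unfold tile
  simp only [Set.mem_ofPred_eq, Pi.sub_apply, Nat.cast_zero, zero_mul, zero_add, one_mul]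
  refine forall_congr' fun l => ?_
  constructor
  · rintro ⟨h1, h2⟩
    exact ⟨by linarith, by linarith⟩
  · rintro ⟨h1, h2⟩
    exact ⟨by linarith, by linarith⟩

/-- the inner integral, moved to the tile `0` -/
theorem inner_shift (hRHO : S_RHO) {k : ℕ} (a : ℝ) (M i : ℕ) (y : Fin k → ℝ) :
    ∫ v in (Set.Ico 0 ((M : ℝ) * a))ᶜ, q y v =
      ∫ v in {v | v + (i : ℝ) * a ∈ (Set.Ico 0 ((M : ℝ) * a))ᶜ},
        q (y - fun _ => (i : ℝ) * a) v := by
  have hS : MeasurableSet (Set.Ico 0 ((M : ℝ) * a))ᶜ := measurableSet_Ico.compl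
  have hS' : MeasurableSet {v | v + (i : ℝ) * a ∈ (Set.Ico 0 ((M : ℝ) * a))ᶜ} :=
    (measurable_id.add_const _) hS
  rw [← integral_indicator hS, ← integral_indicator hS',
    ← integral_sub_right_eq_self
      ({v | v + (i : ℝ) * a ∈ (Set.Ico 0 ((M : ℝ) * a))ᶜ}.indicator
        (fun v => q (y - fun _ => (i : ℝ) * a) v)) ((i : ℝ) * a)]
  refine integral_congr_ae (Eventually.of_forall fun v => ?_)
  have h1 : q (y - fun _ => (i : ℝ) * a) (v - (i : ℝ) * a) = q y v := q_sub hRHO y v _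
  by_cases hv : v ∈ (Set.Ico 0 ((M : ℝ) * a))ᶜ
  · have hv' : v - (i : ℝ) * a ∈ {v | v + (i : ℝ) * a ∈ (Set.Ico 0 ((M : ℝ) * a))ᶜ} := by
      change v - (i : ℝ) * a + (i : ℝ) * a ∈ (Set.Ico 0 ((M : ℝ) * a))ᶜ
      rwa [sub_add_cancel]
    exact (Set.indicator_of_mem hv _).trans (h1.symm.trans (Set.indicator_of_mem hv' _).symm)
  · have hv' : v - (i : ℝ) * a ∉ {v | v + (i : ℝ) * a ∈ (Set.Ico 0 ((M : ℝ) * a))ᶜ} := by
      change ¬ (v - (i : ℝ) * a + (i : ℝ) * a ∈ (Set.Ico 0 ((M : ℝ) * a))ᶜ)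
      rwa [sub_add_cancel]
    exact (Set.indicator_of_notMem hv _).trans (Set.indicator_of_notMem hv' _).symm

theorem summand_eq (hRHO : S_RHO) (k : ℕ) (a : ℝ) (M i : ℕ) :
    ∫ y in tile k a i, (∫ v in (Set.Ico 0 ((M : ℝ) * a))ᶜ, q y v) =
      ∫ y in tile k a 0, ∫ v in {v | v + (i : ℝ) * a ∈ (Set.Ico 0 ((M : ℝ) * a))ᶜ}, q y v := by
  rw [← integral_indicator (measurableSet_tile k a i), ← integral_indicator (measurableSet_tile k a 0),
    ← integral_sub_right_eq_self
      ((tile k a 0).indicator (fun y =>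
        ∫ v in {v | v + (i : ℝ) * a ∈ (Set.Ico 0 ((M : ℝ) * a))ᶜ}, q y v))
      (fun _ => (i : ℝ) * a)]
  refine integral_congr_ae (Eventually.of_forall fun y => ?_)
  by_cases hy : y ∈ tile k a i
  · have hy' := (mem_tile_shift k a i y).1 hy
    exact (Set.indicator_of_mem hy _).trans
      ((inner_shift hRHO a M i y).trans (Set.indicator_of_mem hy' (fun y : Fin k → ℝ =>
        ∫ v in {v | v + (i : ℝ) * a ∈ (Set.Ico 0 ((M : ℝ) * a))ᶜ}, q y v)).symm)
  · have hy' := fun h => hy ((mem_tile_shift k a i y).2 h)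
    exact (Set.indicator_of_notMem hy _).trans (Set.indicator_of_notMem hy' _).symm

theorem inner_le (hFIS : S_FIS) (hSUM : S_SUM) {k : ℕ} (a : ℝ) (ha : 0 < a) (M i : ℕ) (hi : i < M)
    (y : Fin k → ℝ) :
    ∫ v in {v | v + (i : ℝ) * a ∈ (Set.Ico 0 ((M : ℝ) * a))ᶜ}, q y v ≤
      g ((i : ℝ) * a) y + g (((M - 1 - i : ℕ) : ℝ) * a) y := by
  have hS' : MeasurableSet {v | v + (i : ℝ) * a ∈ (Set.Ico 0 ((M : ℝ) * a))ᶜ} :=
    (measurable_id.add_const _) measurableSet_Ico.compl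
  unfold g
  rw [← integral_indicator hS', ← integral_indicator (measurableSet_W _),
    ← integral_indicator (measurableSet_W _),
    ← integral_add ((integrable_q hSUM y).indicator (measurableSet_W _))
      ((integrable_q hSUM y).indicator (measurableSet_W _))]
  refine integral_mono ((integrable_q hSUM y).indicator hS')
    (((integrable_q hSUM y).indicator (measurableSet_W _)).add
      ((integrable_q hSUM y).indicator (measurableSet_W _))) fun v => ?_
  have h0 := q_nonneg hFIS y v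
  have hw1 : 0 ≤ (W ((i : ℝ) * a)).indicator (fun v => q y v) v :=
    Set.indicator_nonneg (fun v _ => q_nonneg hFIS y v) v
  have hw2 : 0 ≤ (W (((M - 1 - i : ℕ) : ℝ) * a)).indicator (fun v => q y v) v :=
    Set.indicator_nonneg (fun v _ => q_nonneg hFIS y v) v
  change {v | v + (i : ℝ) * a ∈ (Set.Ico 0 ((M : ℝ) * a))ᶜ}.indicator (fun v => q y v) v ≤
    (W ((i : ℝ) * a)).indicator (fun v => q y v) v +
      (W (((M - 1 - i : ℕ) : ℝ) * a)).indicator (fun v => q y v) v
  by_cases hv : v ∈ {v | v + (i : ℝ) * a ∈ (Set.Ico 0 ((M : ℝ) * a))ᶜ}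
  · rw [Set.indicator_of_mem hv]
    have hv1 : v + (i : ℝ) * a ∉ Set.Ico 0 ((M : ℝ) * a) := hv
    have hc : (((M - 1 - i : ℕ) : ℝ)) = (M : ℝ) - 1 - i := by
      rw [Nat.cast_sub (by omega), Nat.cast_sub (by omega), Nat.cast_one]
    by_cases h1 : 0 ≤ v + (i : ℝ) * a
    · have h2 : (M : ℝ) * a ≤ v + (i : ℝ) * a := by
        by_contra h3
        exact hv1 ⟨h1, lt_of_not_ge h3⟩
      have h3 : v ∈ W (((M - 1 - i : ℕ) : ℝ) * a) := by
        change ((M - 1 - i : ℕ) : ℝ) * a ≤ |v|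
        rw [hc]
        refine le_trans ?_ (le_abs_self v)
        nlinarith
      rw [Set.indicator_of_mem h3] at hw2 ⊢
      linarith
    · have h3 : v ∈ W ((i : ℝ) * a) := by
        change (i : ℝ) * a ≤ |v|
        refine le_trans ?_ (neg_le_abs v)
        linarith
      rw [Set.indicator_of_mem h3] at hw1 ⊢
      linarith
  · rw [Set.indicator_of_notMem hv]
    linarith

theorem integrableOn_g (hFIS : S_FIS) (hRHO : S_RHO) (hSUM : S_SUM) (k : ℕ) (a x : ℝ) :
    IntegrableOn (fun y : Fin k → ℝ => g x y) (tile k a 0) :=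
  integrableOn_of_bound k a _ (measurable_inner hRHO k _) k fun y => by
    rw [abs_of_nonneg (g_nonneg hFIS x y)]
    exact g_le hFIS hSUM x y

theorem summand_le (hFIS : S_FIS) (hRHO : S_RHO) (hSUM : S_SUM) (k : ℕ) (a : ℝ) (ha : 0 < a)
    (M i : ℕ) (hi : i < M) :
    ∫ y in tile k a i, (∫ v in (Set.Ico 0 ((M : ℝ) * a))ᶜ, q y v) ≤
      tail k a ((i : ℝ) * a) + tail k a (((M - 1 - i : ℕ) : ℝ) * a) := by
  rw [summand_eq hRHO]
  unfold tail
  rw [← integral_add (integrableOn_g hFIS hRHO hSUM k a _) (integrableOn_g hFIS hRHO hSUM k a _)]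
  refine integral_mono ?_ ((integrableOn_g hFIS hRHO hSUM k a _).add
    (integrableOn_g hFIS hRHO hSUM k a _)) fun y => inner_le hFIS hSUM a ha M i hi y
  refine integrableOn_of_bound k a _ (measurable_inner hRHO k _) k fun y => ?_
  rw [abs_of_nonneg (integral_nonneg fun v => q_nonneg hFIS y v)]
  exact (setIntegral_le_integral (integrable_q hSUM y)
    (Eventually.of_forall fun v => q_nonneg hFIS y v)).trans (integral_q_le hFIS hSUM y)

theorem t_TAIL (hFIS : S_FIS) (hRHO : S_RHO) (hSUM : S_SUM) : S_TAIL := by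
  intro k a _ ha
  have h1 := ((tail_tendsto hFIS hRHO hSUM k a ha).cesaro).const_mul 2
  rw [mul_zero] at h1
  refine squeeze_zero (fun M => ?_) (fun M => ?_) h1
  · refine div_nonneg (Finset.sum_nonneg fun i _ => ?_) (Nat.cast_nonneg M)
    exact integral_nonneg fun y => integral_nonneg fun v => q_nonneg hFIS y v
  · have h2 : tl k a M ≤ ∑ i ∈ range M,
        (tail k a ((i : ℝ) * a) + tail k a (((M - 1 - i : ℕ) : ℝ) * a)) :=
      Finset.sum_le_sum fun i hi => summand_le hFIS hRHO hSUM k a ha M i (Finset.mem_range.1 hi)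
    have h3 : ∑ i ∈ range M, (tail k a ((i : ℝ) * a) + tail k a (((M - 1 - i : ℕ) : ℝ) * a)) =
        2 * ∑ i ∈ range M, tail k a ((i : ℝ) * a) := by
      rw [Finset.sum_add_distrib,
        Finset.sum_range_reflect (fun i : ℕ => tail k a ((i : ℝ) * a)) M, two_mul]
    rw [h3] at h2
    rw [div_eq_inv_mul]
    calc (M : ℝ)⁻¹ * tl k a M ≤ (M : ℝ)⁻¹ * (2 * ∑ i ∈ range M, tail k a ((i : ℝ) * a)) :=
          mul_le_mul_of_nonneg_left h2 (inv_nonneg.2 (Nat.cast_nonneg M))
      _ = 2 * ((M : ℝ)⁻¹ * ∑ i ∈ range M, tail k a ((i : ℝ) * a)) := by ring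

end Pool.Agent.H548.GU.TAIL
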